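import Mathlib
import Pool.Agent.P8H39.MH.Stm

/-!
# Project MH (helper39), package FIN, part 1: the covectors of an arrangement
-/

set_option autoImplicit false
set_option linter.unusedSectionVars false

namespace Pool.Agent.P8H88.MH

open Pool.Agent.P8H39.MH
open Pool.Agent.R142.Arr

section

variable {d : ℕ} {ι : Type} [Fintype ι] [DecidableEq ι] (f : ι → ((Fin d → ℝ) →ₗ[ℝ] ℝ))

/-- the sign vector of a point -/
noncomputable def sv (x : Fin d → ℝ) : ι → SignType := fun i => SignType.sign (f i x)

/-- the covectors -/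
def cov : Set (ι → SignType) := Set.range (sv f)

lemma sv_neg (x : Fin d → ℝ) : sv f (-x) = -sv f x := by
  funext i
  simp [sv, Left.sign_neg]

/-- near the point `x` -/
lemma near (x y : Fin d → ℝ) : ∃ e : ℝ, 0 < e ∧ ∀ i, f i x ≠ 0 →
    SignType.sign (f i (x + e • y)) = SignType.sign (f i x) := by
  classical
  have h : ∀ i, ∃ e : ℝ, 0 < e ∧ ∀ t : ℝ, 0 < t → t ≤ e → f i x ≠ 0 →
      SignType.sign (f i (x + t • y)) = SignType.sign (f i x) := by
    intro i
    by_cases h0 : f i x = 0
    · exact ⟨1, one_pos, fun _ _ _ h => absurd h0 h⟩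
    · have hp : 0 < |f i x| := abs_pos.2 h0
      refine ⟨|f i x| / (2 * (|f i y| + 1)), by positivity, fun t ht hte _ => ?_⟩
      have h1 : t * |f i y| < |f i x| := by
        have h2 : t * (2 * (|f i y| + 1)) ≤ |f i x| := by
          rwa [le_div_iff₀ (by positivity)] at hte
        nlinarith [abs_nonneg (f i y)]
      have h3 : |t * f i y| < |f i x| := by rwa [abs_mul, abs_of_pos ht]
      rw [map_add, map_smul, smul_eq_mul]
      rcases lt_or_gt_of_ne h0 with h4 | h4
      · have h5 := (abs_lt.1 h3).2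
        rw [abs_of_neg h4] at h5
        rw [sign_neg h4, sign_neg (by linarith)]
      · have h5 := (abs_lt.1 h3).1
        rw [abs_of_pos h4] at h5
        rw [sign_pos h4, sign_pos (by linarith)]
  choose e he he2 using h
  by_cases hne : Nonempty ι
  · refine ⟨Finset.univ.inf' Finset.univ_nonempty e, ?_, fun i hi => ?_⟩
    · rw [Finset.lt_inf'_iff]
      exact fun i _ => he i
    · refine he2 i _ ?_ (Finset.inf'_le e (Finset.mem_univ i)) hi
      rw [Finset.lt_inf'_iff]
      exact fun i _ => he i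
  · exact ⟨1, one_pos, fun i => absurd ⟨i⟩ hne⟩

lemma seg_sign {x y : Fin d → ℝ} {i : ι} (h : sv f x i = sv f y i) {t : ℝ} (h0 : 0 ≤ t) (h1 : t ≤ 1) :
    sv f ((1 - t) • x + t • y) i = sv f x i := by
  unfold sv at h ⊢
  rw [map_add, map_smul, map_smul, smul_eq_mul, smul_eq_mul]
  rcases lt_trichotomy (f i x) 0 with hx | hx | hx
  · rw [sign_neg hx] at h ⊢
    have hy : f i y < 0 := sign_eq_neg_one_iff.1 h.symm
    apply sign_neg
    rcases h0.eq_or_lt with h2 | h2
    · subst h2; linarith
    · nlinarith [mul_pos h2 (neg_pos.2 hy), mul_nonneg (sub_nonneg.2 h1) (neg_pos.2 hx).le]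
  · rw [hx, sign_zero] at h
    have hy : f i y = 0 := sign_eq_zero_iff.1 h.symm
    rw [hx, hy]; simp
  · rw [sign_pos hx] at h ⊢
    have hy : 0 < f i y := sign_eq_one_iff.1 h.symm
    apply sign_pos
    rcases h0.eq_or_lt with h2 | h2
    · subst h2; linarith
    · nlinarith [mul_pos h2 hy, mul_nonneg (sub_nonneg.2 h1) hx.le]

lemma seg_cross {a b : ℝ} (ha : a ≠ 0) (h : SignType.sign b = -SignType.sign a) (t : ℝ) :
    (t < a / (a - b) → SignType.sign ((1 - t) * a + t * b) = SignType.sign a) ∧
    (t = a / (a - b) → SignType.sign ((1 - t) * a + t * b) = 0) ∧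
    (a / (a - b) < t → SignType.sign ((1 - t) * a + t * b) = -SignType.sign a) := by
  rcases lt_or_gt_of_ne ha with h1 | h1
  · rw [sign_neg h1] at h ⊢
    have hb : 0 < b := sign_eq_one_iff.1 (by rw [h]; rfl)
    have hab : a - b < 0 := by linarith
    refine ⟨fun ht => ?_, fun ht => ?_, fun ht => ?_⟩
    · rw [lt_div_iff_of_neg hab] at ht
      apply sign_neg
      linarith
    · rw [eq_div_iff hab.ne] at ht
      rw [sign_eq_zero_iff]
      linarith
    · rw [div_lt_iff_of_neg hab] at ht
      rw [sign_pos]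
      · rfl
      · linarith
  · rw [sign_pos h1] at h ⊢
    have hb : b < 0 := sign_eq_neg_one_iff.1 h
    have hab : 0 < a - b := by linarith
    refine ⟨fun ht => ?_, fun ht => ?_, fun ht => ?_⟩
    · rw [lt_div_iff₀ hab] at ht
      apply sign_pos
      linarith
    · rw [eq_div_iff hab.ne'] at ht
      rw [sign_eq_zero_iff]
      linarith
    · rw [div_lt_iff₀ hab] at ht
      apply sign_neg
      linarith

theorem cos : COS (cov f) where
  neg := by
    rintro _ ⟨x, rfl⟩
    exact ⟨-x, sv_neg f x⟩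
  comp := by
    rintro _ ⟨x, rfl⟩ _ ⟨y, rfl⟩
    obtain ⟨e, he, h⟩ := near f x y
    refine ⟨x + e • y, ?_⟩
    funext i
    unfold Pool.Agent.P8H39.MH.cmp
    by_cases h0 : f i x = 0
    · have h1 : sv f x i = 0 := by unfold sv; rw [h0, sign_zero]
      rw [if_pos h1]
      unfold sv
      rw [map_add, map_smul, h0, zero_add, smul_eq_mul, sign_mul, sign_pos he, one_mul]
    · have h1 : sv f x i ≠ 0 := by
        unfold sv
        rwa [Ne, sign_eq_zero_iff]
      rw [if_neg h1]
      exact h i h0
  elim := by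
    rintro _ ⟨x, rfl⟩ P hP hne ⟨y, hy⟩ hmin
    let τ : ι → ℝ := fun i => f i x / (f i x - f i y)
    have hx0 : ∀ i ∈ P, f i x ≠ 0 := fun i hi h => hne i hi (by unfold sv; rw [h, sign_zero])
    have hyP : ∀ i ∈ P, SignType.sign (f i y) = -SignType.sign (f i x) := by
      intro i hi
      have := congrFun hy i
      unfold flp at this
      rw [if_pos hi] at this
      exact this
    have hyN : ∀ i, i ∉ P → sv f x i = sv f y i := by
      intro i hi
      have := congrFun hy i
      unfold flp at this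
      rw [if_neg hi] at this
      exact this.symm
    have hτ : ∀ i ∈ P, 0 < τ i ∧ τ i < 1 := by
      intro i hi
      have h1 := hx0 i hi
      have h2 := hyP i hi
      rcases lt_or_gt_of_ne h1 with h3 | h3
      · rw [sign_neg h3] at h2
        have hb : 0 < f i y := sign_eq_one_iff.1 (by rw [h2]; rfl)
        have hab : f i x - f i y < 0 := by linarith
        constructor
        · exact div_pos_of_neg_of_neg h3 hab
        · show f i x / (f i x - f i y) < 1
          rw [div_lt_iff_of_neg hab]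
          linarith
      · rw [sign_pos h3] at h2
        have hb : f i y < 0 := sign_eq_neg_one_iff.1 h2
        have hab : 0 < f i x - f i y := by linarith
        constructor
        · exact div_pos h3 hab
        · show f i x / (f i x - f i y) < 1
          rw [div_lt_iff₀ hab]
          linarith
    have hall : ∀ i ∈ P, ∀ j ∈ P, ¬ τ i < τ j := by
      intro i hi j hj hij
      obtain ⟨t, ht, htn⟩ := (Set.Ioo_infinite hij).exists_notMem_finset (P.image τ)
      have h01 : 0 ≤ t ∧ t ≤ 1 := ⟨((hτ i hi).1.trans ht.1).le, (ht.2.trans (hτ j hj).2).le⟩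
      apply hmin (P.filter fun k => τ k < t)
      · exact ⟨i, Finset.mem_filter.2 ⟨hi, ht.1⟩⟩
      · rw [Finset.ssubset_iff_of_subset (Finset.filter_subset _ _)]
        exact ⟨j, hj, fun h => absurd (Finset.mem_filter.1 h).2 (not_lt.2 ht.2.le)⟩
      · refine ⟨(1 - t) • x + t • y, ?_⟩
        funext k
        unfold flp
        by_cases hk : k ∈ P
        · have hs := seg_cross (hx0 k hk) (hyP k hk) t
          by_cases hkt : τ k < t
          · rw [if_pos (Finset.mem_filter.2 ⟨hk, hkt⟩)]
            unfold sv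
            rw [map_add, map_smul, map_smul, smul_eq_mul, smul_eq_mul]
            exact hs.2.2 hkt
          · rw [if_neg (c := k ∈ P.filter fun k => τ k < t) fun h => hkt (Finset.mem_filter.1 h).2]
            unfold sv
            rw [map_add, map_smul, map_smul, smul_eq_mul, smul_eq_mul]
            refine hs.1 (lt_of_le_of_ne (not_lt.1 hkt) ?_)
            intro h
            apply htn
            rw [h]
            exact Finset.mem_image_of_mem τ hk
        · rw [if_neg fun h => hk (Finset.mem_filter.1 h).1]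
          exact seg_sign f (hyN k hk) h01.1 h01.2
    obtain ⟨i, hi⟩ := hP
    refine ⟨(1 - τ i) • x + τ i • y, ?_⟩
    funext k
    unfold zro
    by_cases hk : k ∈ P
    · rw [if_pos hk]
      have hs := seg_cross (hx0 k hk) (hyP k hk) (τ i)
      unfold sv
      rw [map_add, map_smul, map_smul, smul_eq_mul, smul_eq_mul]
      exact hs.2.1 (le_antisymm (not_lt.1 (hall k hk i hi)) (not_lt.1 (hall i hi k hk)))
    · rw [if_neg hk]
      exact seg_sign f (hyN k hk) (hτ i hi).1.le (hτ i hi).2.le

/-- a point with prescribed values of two forms -/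
lemma two_values (hrk : ∀ i, Module.finrank ℝ (LinearMap.ker (f i)) + 1 = d)
    (hinj : Function.Injective fun i => LinearMap.ker (f i)) {i j : ι} (hij : i ≠ j) (a b : ℝ) :
    ∃ v, f i v = a ∧ f j v = b := by
  have key : ∀ i j : ι, i ≠ j → ∃ u, f i u = 0 ∧ f j u ≠ 0 := by
    intro i j hij
    by_contra hcon
    push Not at hcon
    have hle : LinearMap.ker (f i) ≤ LinearMap.ker (f j) := fun u hu =>
      LinearMap.mem_ker.2 (hcon u (LinearMap.mem_ker.1 hu))
    have := Submodule.eq_of_le_of_finrank_eq hle (by have := hrk i; have := hrk j; omega)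
    exact hij (hinj this)
  obtain ⟨u, hu1, hu2⟩ := key i j hij
  obtain ⟨w, hw1, hw2⟩ := key j i hij.symm
  refine ⟨(a / f i w) • w + (b / f j u) • u, ?_, ?_⟩
  · rw [map_add, map_smul, map_smul, hu1, smul_eq_mul, smul_eq_mul, div_mul_cancel₀ _ hw2, mul_zero, add_zero]
  · rw [map_add, map_smul, map_smul, hw1, smul_eq_mul, smul_eq_mul, div_mul_cancel₀ _ hu2, mul_zero, zero_add]

/-- a minimal flip of a tope is a single element -/
theorem single_flip (hrk : ∀ i, Module.finrank ℝ (LinearMap.ker (f i)) + 1 = d)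
    (hinj : Function.Injective fun i => LinearMap.ker (f i)) {E : ι → SignType} (hE : E ∈ cov f)
    (hE0 : ∀ i, E i ≠ 0) {S : Finset ι} (hS : S.Nonempty) (hflp : flp E S ∈ cov f) :
    ∃ i ∈ S, flp E {i} ∈ cov f := by
  classical
  obtain ⟨P, hP⟩ : ∃ P : Finset ι, Minimal (fun P => P.Nonempty ∧ P ⊆ S ∧ flp E P ∈ cov f) P := by
    have hfin : {P : Finset ι | P.Nonempty ∧ P ⊆ S ∧ flp E P ∈ cov f}.Finite := Set.toFinite _
    obtain ⟨P, hP⟩ := hfin.exists_minimal ⟨S, hS, Finset.Subset.refl _, hflp⟩
    exact ⟨P, hP⟩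
  obtain ⟨⟨hPne, hPS, hPf⟩, hPmin⟩ := hP
  have hmin : ∀ P' : Finset ι, P'.Nonempty → P' ⊂ P → flp E P' ∉ cov f := by
    intro P' h1 h2 h3
    have := hPmin ⟨h1, h2.subset.trans hPS, h3⟩ h2.subset
    exact h2.not_subset this
  obtain ⟨z, hz⟩ := (cos f).elim E hE P hPne (fun i _ => hE0 i) hPf hmin
  obtain ⟨i, hi⟩ := hPne
  by_cases hone : P = {i}
  · exact ⟨i, hPS hi, hone ▸ hPf⟩
  exfalso
  obtain ⟨j, hj, hji⟩ : ∃ j ∈ P, j ≠ i := by
    by_contra hcon
    push Not at hcon
    apply hone
    ext k
    rw [Finset.mem_singleton]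
    exact ⟨fun hk => hcon k hk, fun hk => hk ▸ hi⟩
  have hval : ∀ s : SignType, ∃ a : ℝ, SignType.sign a = s := by
    intro s
    cases s
    · exact ⟨0, sign_zero⟩
    · exact ⟨-1, by rw [sign_neg (by norm_num)]; rfl⟩
    · exact ⟨1, by rw [sign_pos (by norm_num)]; rfl⟩
  obtain ⟨a, ha⟩ := hval (E i)
  obtain ⟨b, hb⟩ := hval (-E j)
  obtain ⟨v, hv1, hv2⟩ := two_values f hrk hinj (Ne.symm hji) a b
  have h1 : Pool.Agent.P8H39.MH.cmp (Pool.Agent.P8H39.MH.cmp (sv f z) (sv f v)) E ∈ cov f :=
    (cos f).comp _ ((cos f).comp _ ⟨z, rfl⟩ _ ⟨v, rfl⟩) _ hE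
  have hzP : ∀ k ∈ P, sv f z k = 0 := by
    intro k hk
    rw [hz]
    unfold zro
    rw [if_pos hk]
  have hzN : ∀ k, k ∉ P → sv f z k = E k := by
    intro k hk
    rw [hz]
    unfold zro
    rw [if_neg hk]
  have h2 : Pool.Agent.P8H39.MH.cmp (Pool.Agent.P8H39.MH.cmp (sv f z) (sv f v)) E = flp E (P.filter fun k => sv f v k = -E k) := by
    funext k
    unfold Pool.Agent.P8H39.MH.cmp flp
    by_cases hk : k ∈ P
    · rw [hzP k hk, if_pos rfl]
      by_cases hk2 : sv f v k = -E k
      · rw [if_neg, if_pos (Finset.mem_filter.2 ⟨hk, hk2⟩), hk2]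
        rw [hk2]
        have h3 := hE0 k
        revert h3
        generalize E k = p
        revert p
        decide
      · rw [if_neg (c := k ∈ P.filter _) fun h => hk2 (Finset.mem_filter.1 h).2]
        have h3 := hE0 k
        split_ifs with h4
        · rfl
        · revert h3 h4 hk2
          generalize E k = p
          generalize sv f v k = q
          revert p q
          decide
    · rw [hzN k hk, if_neg (hE0 k), if_neg (hE0 k), if_neg fun h => hk (Finset.mem_filter.1 h).1]
  rw [h2] at h1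
  refine hmin _ ?_ ?_ h1
  · refine ⟨j, Finset.mem_filter.2 ⟨hj, ?_⟩⟩
    unfold sv
    rw [hv2, hb]
  · rw [Finset.ssubset_iff_of_subset (Finset.filter_subset _ _)]
    refine ⟨i, hi, fun h => ?_⟩
    have h3 := (Finset.mem_filter.1 h).2
    unfold sv at h3
    rw [hv1, ha] at h3
    have h4 := hE0 i
    revert h3 h4
    generalize E i = p
    revert p
    decide

end

end Pool.Agent.P8H88.MH
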