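import Mathlib
import Pool.Agent.P8H39.MH.Rel

/-!
# Project MH (helper39), package FIN, part 2: torsion-free homology of relative complexes
-/

set_option autoImplicit false
set_option linter.unusedSectionVars false
set_option linter.style.haveILetI false

namespace Pool.Agent.P8H88.MH

open Finsupp
open Pool.Agent.P8H39.MH

variable {α : Type}

/-- the homology of the complex of `S` has no torsion in degree `k` -/
def TF (S : Set (List α)) (k : ℕ) : Prop :=
  ∀ n : ℤ, n ≠ 0 → ∀ c : List α →₀ ℤ, IsC S k c → (∀ m ∈ S, bd c m = 0) →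
    ∀ v : List α →₀ ℤ, IsC S (k + 1) v → (∀ l ∈ S, bd v l = n • c l) →
    ∃ w : List α →₀ ℤ, IsC S (k + 1) w ∧ ∀ l ∈ S, bd w l = c l

theorem TF_of_no {S : Set (List α)} {k : ℕ} (h : ∀ l ∈ S, l.length ≠ k) : TF S k := by
  intro n _ c hc _ _ _ _
  refine ⟨0, IsC.zero _ _, ?_⟩
  intro l hl
  have : c l = 0 := by
    by_contra h1
    exact h l (hc l h1).1 (hc l h1).2
  rw [this]
  simp

theorem bd_map {M N : Type} [AddCommGroup M] [AddCommGroup N] (φ : M →+ N) (c : List α →₀ M)
    (m : List α) : bd (c.mapRange φ (map_zero φ)) m = φ (bd c m) := by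
  rw [bd_apply, bd_apply, Finsupp.sum_mapRange_index (by simp), Finsupp.sum, Finsupp.sum, map_sum]
  refine Finset.sum_congr rfl fun l _ => ?_
  rw [map_zsmul]

theorem TF_of_Ex {S : Set (List α)} (hS : Conv S) (κ : ℕ)
    (h : ∀ (M : Type) [AddCommGroup M] (k : ℕ), k ≠ κ → Ex M S k) (k : ℕ) : TF S k := by
  intro n hn c hc hz v hv hv2
  by_cases hk : k = κ
  · -- reduce modulo `n`
    have hnat : n.natAbs ≠ 0 := Int.natAbs_ne_zero.2 hn
    haveI : NeZero n.natAbs := ⟨hnat⟩
    let φ : ℤ →+ ZMod n.natAbs := Int.castAddHom (ZMod n.natAbs)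
    have hφ : ∀ a : ℤ, φ a = (a : ZMod n.natAbs) := fun a => rfl
    have hφ0 : ∀ a : ℤ, φ a = 0 → n ∣ a := by
      intro a ha
      rw [hφ, ZMod.intCast_zmod_eq_zero_iff_dvd] at ha
      exact Int.natAbs_dvd.1 ha
    have hφn : ∀ a : ℤ, φ (n • a) = 0 := by
      intro a
      rw [hφ, ZMod.intCast_zmod_eq_zero_iff_dvd]
      exact Int.natAbs_dvd.2 (by rw [smul_eq_mul]; exact dvd_mul_right _ _)
    have hvb : IsC S (k + 1) (v.mapRange φ (map_zero φ)) := by
      intro l hl
      apply hv l
      intro h0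
      apply hl
      rw [Finsupp.mapRange_apply, h0, map_zero]
    obtain ⟨y, hy, hy2⟩ := h (ZMod n.natAbs) (k + 1) (by omega) _ hvb (by
      intro m hm
      rw [bd_map, hv2 m hm, hφn])
    -- an integral lift
    let y' : List α →₀ ℤ := y.mapRange (fun a => (a.val : ℤ)) (by simp)
    have hyφ : y'.mapRange φ (map_zero φ) = y := by
      ext l
      simp [y', φ]
    have hy' : IsC S (k + 1 + 1) y' := by
      intro l hl
      apply hy l
      intro h0
      apply hl
      simp [y', h0]
    let u : List α →₀ ℤ := v - rs S (bd y')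
    have hu : IsC S (k + 1) u := hv.sub (isC_bd hy')
    have hdiv : ∀ l, n ∣ u l := by
      intro l
      by_cases hl : l ∈ S
      · apply hφ0
        have h1 : φ (bd y' l) = φ (v l) := by
          rw [← bd_map, hyφ, hy2 l hl, Finsupp.mapRange_apply]
        rw [Finsupp.sub_apply, rs_mem hl, map_sub, h1, sub_self]
      · have : u l = 0 := by
          by_contra h0
          exact hl (hu l h0).1
        rw [this]
        exact dvd_zero n
    let w : List α →₀ ℤ := u.mapRange (fun a => a / n) (by simp)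
    have hw : n • w = u := by
      ext l
      rw [Finsupp.smul_apply, smul_eq_mul]
      show n * (u l / n) = u l
      exact Int.mul_ediv_cancel' (hdiv l)
    refine ⟨w, ?_, ?_⟩
    · intro l hl
      apply hu l
      intro h0
      apply hl
      simp [w, h0]
    · intro l hl
      have h1 : n • bd w l = n • c l := by
        have h2 : bd (n • w) l = n • bd w l := by rw [map_zsmul, Finsupp.smul_apply]
        rw [← h2, hw, map_sub, Finsupp.sub_apply, hv2 l hl, bd_rs_bd hS hy' hl, sub_zero]
      exact smul_right_injective ℤ hn h1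
  · exact h ℤ k hk c hc hz

theorem TF_pieces {P : Type} {S : Set (List α)} (f : List α → P)
    (hf : ∀ l ∈ S, ∀ m ∈ S, D l m ≠ 0 → f m = f l) {k : ℕ}
    (h : ∀ p, TF {l | l ∈ S ∧ f l = p} k) : TF S k := by
  classical
  intro n hn c hc hz v hv hv2
  have hres : ∀ (j : ℕ) (c : List α →₀ ℤ), IsC S j c → ∀ p, ∀ m ∈ {l | l ∈ S ∧ f l = p},
      bd (rs {l | l ∈ S ∧ f l = p} c) m = bd c m := by
    intro j c hc p m hm
    apply bd_rs
    intro l hl hl2
    by_contra h3
    apply hl2
    refine ⟨(hc l hl).1, ?_⟩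
    rw [← hf l (hc l hl).1 m hm.1 h3]
    exact hm.2
  have h1 : ∀ p, ∃ w : List α →₀ ℤ, IsC {l | l ∈ S ∧ f l = p} (k + 1) w ∧
      ∀ l ∈ {l | l ∈ S ∧ f l = p}, bd w l = rs {l | l ∈ S ∧ f l = p} c l := by
    intro p
    refine h p n hn _ (isC_rs hc fun l hl => hl.1) ?_ _ (isC_rs hv fun l hl => hl.1) ?_
    · intro m hm
      rw [hres k c hc p m hm]
      exact hz m hm.1
    · intro m hm
      rw [hres (k + 1) v hv p m hm, hv2 m hm.1, rs_mem hm]
  choose w hw hw2 using h1
  refine ⟨∑ p ∈ c.support.image f, w p, ?_, ?_⟩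
  · intro l hl
    rw [Finsupp.finsetSum_apply] at hl
    obtain ⟨p, -, hp⟩ := Finset.exists_ne_zero_of_sum_ne_zero hl
    exact ⟨(hw p l hp).1.1, (hw p l hp).2⟩
  · intro l hl
    rw [map_sum, Finsupp.finsetSum_apply]
    have h3 : ∀ p, p ≠ f l → bd (w p) l = 0 := by
      intro p hp
      by_contra h4
      obtain ⟨x, hx1, hx2⟩ := bd_ne_zero h4
      have h5 := (hw p x hx1).1
      exact hp (h5.2.symm.trans (hf x h5.1 l hl hx2).symm)
    have h4 : bd (w (f l)) l = c l := by
      rw [hw2 (f l) l ⟨hl, rfl⟩, rs_mem]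
      exact ⟨hl, rfl⟩
    by_cases h5 : c l = 0
    · rw [h5] at h4 ⊢
      apply Finset.sum_eq_zero
      intro p _
      by_cases hp : p = f l
      · rw [hp]; exact h4
      · exact h3 p hp
    · rw [Finset.sum_eq_single (f l) (fun p _ hp => h3 p hp), h4]
      intro h6
      exact absurd (Finset.mem_image_of_mem f (Finsupp.mem_support_iff.2 h5)) h6

/-- the boundary as a sum over positions -/
theorem D_sum (l : List α) : D l = ∑ i ∈ Finset.range l.length, (-1 : ℤ) ^ i • single (l.eraseIdx i) 1 := by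
  induction l with
  | nil => simp [D_nil]
  | cons a l ih =>
    rw [D_cons, ih, List.length_cons, Finset.sum_range_succ', Finsupp.mapDomain_finsetSum]
    simp only [List.eraseIdx_zero, List.tail_cons, pow_zero, one_smul, List.eraseIdx_cons_succ]
    have : ∀ i ∈ Finset.range l.length, Finsupp.mapDomain (List.cons a) ((-1 : ℤ) ^ i • single (l.eraseIdx i) 1) =
        -((-1 : ℤ) ^ (i + 1) • single (a :: l.eraseIdx i) (1 : ℤ)) := by
      intro i _
      rw [Finsupp.mapDomain_smul, Finsupp.mapDomain_single, pow_succ, mul_neg_one, neg_smul, neg_neg]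
    rw [Finset.sum_congr rfl this, Finset.sum_neg_distrib, sub_neg_eq_add, add_comm]

open Classical in
theorem D_sum_apply (l m : List α) :
    D l m = ∑ i ∈ Finset.range l.length, (-1 : ℤ) ^ i * (if l.eraseIdx i = m then 1 else 0) := by
  rw [D_sum, Finsupp.finsetSum_apply]
  refine Finset.sum_congr rfl fun i _ => ?_
  rw [Finsupp.smul_apply, smul_eq_mul, Finsupp.single_apply]

/-- a map that preserves the faces inside a family preserves the incidence numbers -/
theorem D_map_of {β : Type} (g : α → β) (l m : List α)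
    (h : ∀ i < l.length, (l.eraseIdx i).map g = m.map g → l.eraseIdx i = m) :
    D (l.map g) (m.map g) = D l m := by
  classical
  rw [D_sum_apply, D_sum_apply, List.length_map]
  refine Finset.sum_congr rfl fun i hi => ?_
  rw [List.eraseIdx_map]
  congr 1
  by_cases h1 : l.eraseIdx i = m
  · rw [if_pos h1, if_pos (by rw [h1])]
  · rw [if_neg h1, if_neg fun h2 => h1 (h i (Finset.mem_range.1 hi) h2)]

end Pool.Agent.P8H88.MH
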