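import Mathlib
import Pool.Agent.P8H88.MH.Tor

/-!
# Project MH (helper39), package FIN, part 3: crossing vectors of lists of vertices
-/

set_option autoImplicit false
set_option linter.unusedSectionVars false

namespace Pool.Agent.P8H88.MH

open Pool.Agent.P8H39.MH

variable {V ι : Type} [Fintype ι] [DecidableEq ι] (T : V → ι → SignType)

/-- the indicator of the hyperplanes between two vertices -/
def dl (a b : V) : ι → ℕ := fun i => if T a i = T b i then 0 else 1

/-- the crossing vector of the list `a :: M` -/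
def wq (a : V) : List V → (ι → ℕ)
  | [] => 0
  | b :: M => dl T a b + wq b M

lemma wq_nil (a : V) : wq T a [] = 0 := rfl

lemma wq_cons (a b : V) (M : List V) : wq T a (b :: M) = dl T a b + wq T b M := rfl

lemma dl_tri (a b c : V) : dl T a c ≤ dl T a b + dl T b c := by
  intro i
  simp only [dl, Pi.add_apply]
  split_ifs <;> simp_all

lemma dl_self (a : V) : dl T a a = 0 := by
  funext i
  simp [dl]

variable (hinj : Function.Injective T)

include hinj in
lemma dl_eq_zero {a b : V} (h : dl T a b = 0) : a = b := by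
  apply hinj
  funext i
  by_contra h1
  have := congrFun h i
  simp [dl, h1] at this

include hinj in
lemma dl_pos {a b : V} (h : a ≠ b) : 0 < ∑ i, dl T a b i := by
  rw [Finset.sum_pos_iff]
  by_contra h1
  push Not at h1
  apply h
  apply dl_eq_zero T hinj
  funext i
  exact Nat.le_zero.1 (h1 i (Finset.mem_univ i))

include hinj in
theorem W (M : List V) : ∀ (a : V) (L : List V), L.Sublist M → wq T a L ≤ wq T a M ∧
    (List.IsChain (· ≠ ·) (a :: M) → wq T a L = wq T a M → List.IsChain (· ≠ ·) (a :: L)) := by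
  induction M with
  | nil =>
    intro a L hL
    rw [List.sublist_nil] at hL
    subst hL
    exact ⟨le_rfl, fun h _ => h⟩
  | cons b M ih =>
    intro a L hL
    rcases List.sublist_cons_iff.1 hL with h | ⟨L', rfl, h⟩
    · cases L with
      | nil =>
        refine ⟨?_, fun _ _ => List.isChain_singleton _⟩
        intro i
        simp [wq_nil]
      | cons c L' =>
        obtain ⟨h1, h2⟩ := ih b (c :: L') h
        have h3 := dl_tri T a b c
        have h4 : wq T a (c :: L') ≤ dl T a b + wq T b (c :: L') := by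
          rw [wq_cons, wq_cons, ← add_assoc]
          exact add_le_add_left h3 _
        have h5 : dl T a b + wq T b (c :: L') ≤ wq T a (b :: M) := by
          rw [wq_cons T a b]
          exact add_le_add_right h1 _
        refine ⟨h4.trans h5, fun hc heq => ?_⟩
        rw [List.isChain_cons_cons] at hc
        have h6 : dl T a b + wq T b (c :: L') = wq T a (b :: M) :=
          le_antisymm h5 (heq ▸ h4)
        have h7 : wq T b (c :: L') = wq T b M := by
          rw [wq_cons T a b] at h6
          exact add_left_cancel h6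
        have h8 := h2 hc.2 h7
        rw [List.isChain_cons_cons] at h8 ⊢
        refine ⟨?_, h8.2⟩
        rintro rfl
        have h9 : dl T a b + wq T b (a :: L') ≤ wq T a (a :: L') := by rw [h6, heq]
        rw [wq_cons, wq_cons, dl_self, zero_add, ← add_assoc] at h9
        have h10 : dl T a b = 0 := by
          funext i
          have := h9 i
          simp only [Pi.add_apply] at this
          rw [Pi.zero_apply]
          omega
        exact hc.1 (dl_eq_zero T hinj h10)
    · obtain ⟨h1, h2⟩ := ih b L' h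
      refine ⟨?_, fun hc heq => ?_⟩
      · rw [wq_cons, wq_cons]
        exact add_le_add_right h1 _
      · rw [List.isChain_cons_cons] at hc ⊢
        refine ⟨hc.1, h2 hc.2 ?_⟩
        rw [wq_cons, wq_cons] at heq
        exact add_left_cancel heq

include hinj in
theorem W2 {a b : V} {L M : List V} (h : (a :: L).Sublist (b :: M)) : wq T a L ≤ wq T b M := by
  rcases List.sublist_cons_iff.1 h with h1 | ⟨L', h2, h3⟩
  · refine le_trans ?_ (W T hinj M b _ h1).1
    rw [wq_cons]
    exact le_add_self
  · rw [List.cons.injEq] at h2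
    obtain ⟨rfl, rfl⟩ := h2
    exact (W T hinj M a _ h3).1

/-- the family of the lists of total length `l` -/
def fam (l : ℕ) : Set (List V) :=
  {L | ∃ a M, L = a :: M ∧ List.IsChain (· ≠ ·) (a :: M) ∧ ∑ i, wq T a M i = l}

/-- the first vertex and the crossing vector -/
def fp : List V → Option V × (ι → ℕ)
  | [] => (none, 0)
  | a :: M => (some a, wq T a M)

include hinj in
/-- a sublist of total length at least `l` has the same first vertex -/
lemma head_eq {a b : V} {L M : List V} (h : (b :: L).Sublist (a :: M)) (hc : List.IsChain (· ≠ ·) (a :: M))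
    (hl : ∑ i, wq T a M i ≤ ∑ i, wq T b L i) : b = a ∧ L.Sublist M := by
  rcases List.sublist_cons_iff.1 h with h1 | ⟨L', h2, h3⟩
  · exfalso
    cases M with
    | nil => simp at h1
    | cons c M =>
      have h4 := W2 T hinj h1
      rw [List.isChain_cons_cons] at hc
      have h5 := dl_pos T hinj hc.1
      have h6 : ∑ i, wq T b L i ≤ ∑ i, wq T c M i := Finset.sum_le_sum fun i _ => h4 i
      rw [wq_cons] at hl
      simp only [Pi.add_apply, Finset.sum_add_distrib] at hl
      omega
  · rw [List.cons.injEq] at h2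
    obtain ⟨rfl, rfl⟩ := h2
    exact ⟨rfl, h3⟩

lemma eq_of_sum {x y : ι → ℕ} (h : x ≤ y) (h2 : ∑ i, x i = ∑ i, y i) : x = y := by
  funext i
  exact (Finset.sum_eq_sum_iff_of_le fun i _ => h i).1 h2 i (Finset.mem_univ i)

include hinj in
lemma fp_eq {l : ℕ} {L M : List V} (hL : L ∈ fam T l) (hM : M ∈ fam T l) (h : M.Sublist L) :
    fp T M = fp T L := by
  obtain ⟨a, L', rfl, hc, hs⟩ := hL
  obtain ⟨b, M', rfl, hc', hs'⟩ := hM
  obtain ⟨rfl, h1⟩ := head_eq T hinj h hc (by rw [hs, hs'])
  have h2 := eq_of_sum (W T hinj L' b M' h1).1 (by rw [hs, hs'])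
  rw [fp, fp, h2]

include hinj in
theorem conv_fam (l : ℕ) (p : Option V × (ι → ℕ)) : Conv {L | L ∈ fam T l ∧ fp T L = p} := by
  rintro L₁ L₂ L₃ ⟨⟨a₁, M₁, rfl, hc₁, hs₁⟩, h1⟩ ⟨⟨a, M₃, rfl, hc₃, hs₃⟩, h3⟩ h12 h23
  cases L₂ with
  | nil => simp at h12
  | cons b M₂ =>
    have e1 := W2 T hinj h12
    have e2 := W2 T hinj h23
    have s1 : ∑ i, wq T a₁ M₁ i ≤ ∑ i, wq T b M₂ i := Finset.sum_le_sum fun i _ => e1 i
    have s2 : ∑ i, wq T b M₂ i ≤ ∑ i, wq T a M₃ i := Finset.sum_le_sum fun i _ => e2 i
    have s3 : ∑ i, wq T b M₂ i = l := by omega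
    obtain ⟨rfl, h4⟩ := head_eq T hinj h23 hc₃ (by omega)
    have h5 := eq_of_sum e2 (by omega)
    refine ⟨⟨b, M₂, rfl, (W T hinj M₃ b M₂ h4).2 hc₃ h5, s3⟩, ?_⟩
    rw [← h3, fp, fp, h5]

include hinj in
/-- the family of total length `l` is convex -/
theorem fam_face {l : ℕ} {L M : List V} (hL : L ∈ fam T l) (hM : M.Sublist L) (hne : M ≠ [])
    (hl : ∀ a M', M = a :: M' → ∑ i, wq T a M' i = l) : M ∈ fam T l := by
  obtain ⟨a, L', rfl, hc, hs⟩ := hL
  cases M with
  | nil => exact absurd rfl hne
  | cons b M' =>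
    have hs' := hl b M' rfl
    obtain ⟨rfl, h1⟩ := head_eq T hinj hM hc (by omega)
    have h2 := eq_of_sum (W T hinj L' b M' h1).1 (by omega)
    exact ⟨b, M', rfl, (W T hinj L' b M' h1).2 hc h2, hs'⟩

end Pool.Agent.P8H88.MH
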