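import Mathlib
import Pool.Agent.P8H88.MH.Wq
import Pool.Agent.R142.MagHom

/-!
# Project MH (helper39), package FIN, part 5: magnitude homology and families of lists
-/

set_option autoImplicit false
set_option linter.unusedSectionVars false

namespace Pool.Agent.P8H88.MH

open Finsupp
open Pool.Agent.P8H39.MH (D IsC Ex Conv bd_apply bd_ne_zero D_ne_zero)
open Pool.Agent.R142.MagHom (Tuples MC face cyc bdry MH bd_single)

variable {V ι : Type} [Fintype ι] [DecidableEq ι] (T : V → ι → SignType) (G : SimpleGraph V)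

lemma er (n : ℕ) : ∀ (x : Fin (n + 1) → V) (i : Fin (n + 1)),
    (List.ofFn x).eraseIdx i.1 = List.ofFn fun j => x (i.succAbove j) := by
  induction n with
  | zero =>
    intro x i
    have : i = 0 := Fin.ext (by omega)
    subst this
    simp
  | succ n ih =>
    intro x i
    refine Fin.cases ?_ (fun i => ?_) i
    · rw [List.ofFn_succ]
      simp
    · rw [List.ofFn_succ (f := x), Fin.val_succ, List.eraseIdx_cons_succ, ih (fun j => x j.succ) i, List.ofFn_succ]
      simp

lemma tsum (k : ℕ) : ∀ (x : Fin (k + 2) → V) (i : Fin k),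
    (∑ j : Fin (k + 1), G.dist (x j.castSucc) (x j.succ)) + G.dist (x i.castSucc.castSucc) (x i.succ.succ) =
    (∑ j : Fin k, G.dist (x (i.succ.castSucc.succAbove j.castSucc)) (x (i.succ.castSucc.succAbove j.succ))) +
      (G.dist (x i.castSucc.castSucc) (x i.succ.castSucc) + G.dist (x i.succ.castSucc) (x i.succ.succ)) := by
  induction k with
  | zero => intro x i; exact i.elim0
  | succ k ih =>
    intro x i
    refine Fin.cases ?_ (fun i => ?_) i
    · rw [Fin.sum_univ_succ, Fin.sum_univ_succ, Fin.sum_univ_succ (n := k)]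
      have e : (Fin.castSucc (Fin.succ (0 : Fin (k + 1)))) = Fin.succ (0 : Fin (k + 2)) := rfl
      have e2 : ∀ j : Fin (k + 1), (Fin.succ (0 : Fin (k + 2))).succAbove j.succ = j.succ.succ := fun j => by
        rw [Fin.succ_succAbove_succ, Fin.zero_succAbove]
      have e3 : (Fin.succ (0 : Fin (k + 2))).succAbove 0 = 0 := Fin.succ_succAbove_zero _
      simp only [e, Fin.castSucc_zero, e3, e2, ← Fin.succ_castSucc]
      ring
    · have := ih (fun j => x j.succ) i
      conv_lhs => rw [Fin.sum_univ_succ]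
      conv_rhs => rw [Fin.sum_univ_succ]
      simp only [← Fin.succ_castSucc, Fin.castSucc_zero, Fin.succ_succAbove_zero, Fin.succ_succAbove_succ] at this ⊢
      omega

variable (hd : ∀ a b, G.dist a b = ∑ i, dl T a b i)

include hd in
lemma wq_ofFn (k : ℕ) : ∀ (x : Fin (k + 1) → V),
    ∑ i, wq T (x 0) (List.ofFn fun j => x j.succ) i = ∑ i : Fin k, G.dist (x i.castSucc) (x i.succ) := by
  induction k with
  | zero => intro x; simp [wq_nil]
  | succ k ih =>
    intro x
    rw [List.ofFn_succ, wq_cons, Fin.sum_univ_succ]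
    simp only [Pi.add_apply, Finset.sum_add_distrib]
    have h := ih (fun j => x j.succ)
    rw [← hd]
    simp only [Fin.castSucc_zero, ← Fin.succ_castSucc] at h ⊢
    rw [h]

include hd in
lemma ofFn_fam {k l : ℕ} {x : Fin (k + 1) → V} : List.ofFn x ∈ fam T l ↔ x ∈ Tuples G k l := by
  have h1 : List.IsChain (· ≠ ·) (List.ofFn x) ↔ ∀ i : Fin k, x i.castSucc ≠ x i.succ := by
    rw [List.isChain_ofFn]
    constructor
    · intro h i
      exact h i.1 (by omega)
    · intro h i hi
      exact h ⟨i, by omega⟩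
  have h2 := wq_ofFn T G hd k x
  constructor
  · rintro ⟨a, M, hM, hc, hs⟩
    rw [← hM] at hc
    rw [List.ofFn_succ, List.cons.injEq] at hM
    obtain ⟨rfl, rfl⟩ := hM
    exact ⟨h1.1 hc, by rw [← h2]; exact hs⟩
  · rintro ⟨hc, hs⟩
    refine ⟨x 0, List.ofFn fun j => x j.succ, List.ofFn_succ, ?_, ?_⟩
    · rw [← List.ofFn_succ]
      exact h1.2 hc
    · rw [h2]
      exact hs

variable (hinj : Function.Injective T)

open Classical in
lemma D_ofFn (k : ℕ) (x : Fin (k + 2) → V) (y : Fin (k + 1) → V) : D (List.ofFn x) (List.ofFn y) =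
    ∑ i : Fin (k + 2), (-1 : ℤ) ^ i.1 * (if (fun j => x (i.succAbove j)) = y then 1 else 0) := by
  rw [D_sum_apply, List.length_ofFn, Finset.sum_range]
  refine Finset.sum_congr rfl fun i _ => ?_
  rw [er]
  congr 1
  by_cases h : (fun j => x (i.succAbove j)) = y
  · rw [if_pos h, if_pos (by rw [h])]
  · rw [if_neg h, if_neg fun h' => h (List.ofFn_injective h')]

include hd hinj in
lemma bd_rel {k l : ℕ} {x : Fin (k + 2) → V} (hx : x ∈ Tuples G (k + 1) l) {y : Fin (k + 1) → V}
    (hy : y ∈ Tuples G k l) :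
    (Pool.Agent.R142.MagHom.bd G k (single x 1)) y = D (List.ofFn x) (List.ofFn y) := by
  classical
  rw [D_ofFn, bd_single, Finsupp.finsetSum_apply, Fin.sum_univ_succ, Fin.sum_univ_castSucc]
  have hx' := (ofFn_fam T G hd).2 hx
  have hy' := (ofFn_fam T G hd).2 hy
  have z0 : ¬ (fun j => x ((0 : Fin (k + 2)).succAbove j)) = y := by
    intro h
    have h1 := er (k + 1) x 0
    rw [h] at h1
    have h2 := fp_eq T hinj hx' hy' (h1 ▸ List.eraseIdx_sublist _ _)
    rw [List.ofFn_succ (f := y), List.ofFn_succ (f := x), fp, fp, Prod.mk.injEq, Option.some.injEq, ← congrFun h 0] at h2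
    have h3 := hx.1 0
    apply h3
    simpa using h2.1.symm
  have zl : ¬ (fun j => x ((Fin.last k).succ.succAbove j)) = y := by
    intro h
    have h1 : ∀ j, y j = x j.castSucc := by
      intro j
      rw [← h]
      simp
    have h2 := hy.2
    have h3 := hx.2
    rw [Fin.sum_univ_castSucc] at h3
    simp only [h1] at h2
    simp only [← Fin.succ_castSucc] at h2 h3
    have h4 : G.dist (x (Fin.last k).castSucc) (x (Fin.last k).succ) = 0 := by
      simp only [Fin.succ_castSucc] at h2 h3
      omega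
    rw [hd] at h4
    exact (dl_pos T hinj (hx.1 (Fin.last k))).ne' h4
  rw [if_neg z0, if_neg zl, mul_zero, mul_zero, zero_add, add_zero]
  refine Finset.sum_congr rfl fun i _ => ?_
  rw [Finsupp.smul_apply, smul_eq_mul, Fin.val_succ, Fin.val_castSucc]
  congr 1
  unfold face
  have hi : i.castSucc.succ = i.succ.castSucc := Fin.succ_castSucc i
  rw [hi]
  by_cases h : (fun j => x (i.succ.castSucc.succAbove j)) = y
  · have h1 := tsum G k x i
    have h2 : (∑ j : Fin k, G.dist (x (i.succ.castSucc.succAbove j.castSucc))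
        (x (i.succ.castSucc.succAbove j.succ))) = l := by
      rw [← hy.2, ← h]
    rw [h2, hx.2] at h1
    rw [if_pos (by omega), if_pos h, h, single_eq_same]
  · rw [if_neg h]
    split_ifs
    · rw [Finsupp.single_apply, if_neg h]
    · rfl

include hd hinj in
lemma bd_supp {k l : ℕ} {x : Fin (k + 2) → V} (hx : x ∈ Tuples G (k + 1) l) {y : Fin (k + 1) → V}
    (hy : (Pool.Agent.R142.MagHom.bd G k (single x 1)) y ≠ 0) : y ∈ Tuples G k l := by
  classical
  rw [bd_single, Finsupp.finsetSum_apply] at hy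
  obtain ⟨i, -, h⟩ := Finset.exists_ne_zero_of_sum_ne_zero hy
  rw [Finsupp.smul_apply, smul_eq_mul] at h
  have h1 := right_ne_zero_of_mul h
  unfold face at h1
  split_ifs at h1 with h2
  · rw [Finsupp.single_apply] at h1
    have h3 : (fun j => x (i.succ.castSucc.succAbove j)) = y := by
      by_contra h3
      rw [if_neg h3] at h1
      exact h1 rfl
    have h4 := tsum G k x i
    rw [hx.2] at h4
    have h5 : (∑ j : Fin k, G.dist (y j.castSucc) (y j.succ)) = l := by
      rw [← h3]
      show (∑ j : Fin k, G.dist (x (i.succ.castSucc.succAbove j.castSucc))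
        (x (i.succ.castSucc.succAbove j.succ))) = l
      omega
    rw [← ofFn_fam T G hd]
    have h6 := er (k + 1) x i.succ.castSucc
    rw [h3] at h6
    refine fam_face T hinj ((ofFn_fam T G hd).2 hx) (h6 ▸ List.eraseIdx_sublist _ _) ?_ ?_
    · rw [List.ofFn_succ]
      exact List.cons_ne_nil _ _
    · intro a M' hM
      rw [List.ofFn_succ, List.cons.injEq] at hM
      obtain ⟨rfl, rfl⟩ := hM
      rw [wq_ofFn T G hd k y, h5]
  · exact absurd rfl h1

lemma bd_lin (k : ℕ) (c : (Fin (k + 2) → V) →₀ ℤ) (y : Fin (k + 1) → V) :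
    (Pool.Agent.R142.MagHom.bd G k c) y = c.sum fun x a => a * (Pool.Agent.R142.MagHom.bd G k (single x 1)) y := by
  conv_lhs => rw [Pool.Agent.R142.MagHom.bd, Finsupp.linearCombination_apply, Finsupp.sum_apply]
  refine Finset.sum_congr rfl fun x _ => ?_
  beta_reduce
  rw [bd_single, Finsupp.smul_apply, smul_eq_mul]

include hd hinj in
lemma bd_gen {k l : ℕ} {c : (Fin (k + 2) → V) →₀ ℤ} (hc : c ∈ MC G (k + 1) l) {y : Fin (k + 1) → V}
    (hy : y ∈ Tuples G k l) : (Pool.Agent.R142.MagHom.bd G k c) y =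
      Pool.Agent.P8H39.MH.bd (c.mapDomain List.ofFn) (List.ofFn y) := by
  rw [bd_lin, bd_apply, Finsupp.sum_mapDomain_index (by simp) (by intro l a b; simp [mul_add])]
  refine Finset.sum_congr rfl fun x hx => ?_
  have hx' : x ∈ Tuples G (k + 1) l := hc hx
  beta_reduce
  rw [bd_rel T G hd hinj hx' hy, smul_eq_mul, mul_comm]

include hd hinj in
lemma bd_gen0 {k l : ℕ} {c : (Fin (k + 2) → V) →₀ ℤ} (hc : c ∈ MC G (k + 1) l) {y : Fin (k + 1) → V}
    (hy : y ∉ Tuples G k l) : (Pool.Agent.R142.MagHom.bd G k c) y = 0 := by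
  rw [bd_lin]
  apply Finset.sum_eq_zero
  intro x hx
  have hx' : x ∈ Tuples G (k + 1) l := hc hx
  have : (Pool.Agent.R142.MagHom.bd G k (single x 1)) y = 0 := by
    by_contra h
    exact hy (bd_supp T G hd hinj hx' h)
  beta_reduce
  rw [this, mul_zero]

include hd in
lemma isC_map {k l : ℕ} {c : (Fin (k + 1) → V) →₀ ℤ} (hc : c ∈ MC G k l) :
    IsC (fam T l) (k + 1) (c.mapDomain List.ofFn) := by
  classical
  intro L hL
  have h1 := Finsupp.mapDomain_support (Finsupp.mem_support_iff.2 hL)
  rw [Finset.mem_image] at h1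
  obtain ⟨x, hx, rfl⟩ := h1
  exact ⟨(ofFn_fam T G hd).2 (hc hx), by simp⟩

lemma map_ofFn {k : ℕ} (c : (Fin (k + 1) → V) →₀ ℤ) (x : Fin (k + 1) → V) :
    (c.mapDomain List.ofFn) (List.ofFn x) = c x :=
  Finsupp.mapDomain_apply List.ofFn_injective _ _

/-- lists of a given length are tuples -/
lemma exists_ofFn {k : ℕ} {L : List V} (h : L.length = k) : ∃ x : Fin k → V, L = List.ofFn x := by
  subst h
  exact ⟨L.get, (List.ofFn_get L).symm⟩

include hd hinj in
/-- the transfer -/
theorem tors (hTF : ∀ l k, 2 ≤ k → TF (fam T l) k) (k l : ℕ) (m : ℤ) (x : MH G k l) (hm : m ≠ 0)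
    (hx : m • x = 0) : x = 0 := by
  obtain ⟨z, rfl⟩ := Submodule.Quotient.mk_surjective _ x
  rw [← Submodule.Quotient.mk_smul, Submodule.Quotient.mk_eq_zero] at hx
  rw [Submodule.Quotient.mk_eq_zero]
  obtain ⟨v, hv, hv2⟩ := hx
  have hv2' : Pool.Agent.R142.MagHom.bd G k v = m • z.1 := hv2
  show z.1 ∈ bdry G k l
  cases k with
  | zero =>
    have h0 : m • z.1 = 0 := by
      rw [← hv2']
      have h1 : Pool.Agent.R142.MagHom.bd G 0 = 0 := by
        ext x
        simp [Pool.Agent.R142.MagHom.bd]
      rw [h1, LinearMap.zero_apply]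
    have h2 : z.1 = 0 := by
      rcases smul_eq_zero.1 h0 with h | h
      · exact absurd h hm
      · exact h
    rw [h2]
    exact Submodule.zero_mem _
  | succ k =>
    obtain ⟨z, hz⟩ := z
    obtain ⟨hz1, hz2⟩ := hz
    have hz2' : Pool.Agent.R142.MagHom.bd G k z = 0 := hz2
    have hdeg : ∀ (j : ℕ) (c : List V →₀ ℤ), IsC (fam T l) (j + 1) c → ∀ L, L.length ≠ j →
        Pool.Agent.P8H39.MH.bd c L = 0 := by
      intro j c hc L hL
      by_contra h
      obtain ⟨y, hy1, hy2⟩ := bd_ne_zero h
      have h1 := (hc y hy1).2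
      have h2 := (D_ne_zero hy2).2
      omega
    obtain ⟨w, hw, hw2⟩ := hTF l (k + 1 + 1) (by omega) m hm (z.mapDomain List.ofFn) (isC_map T G hd hz1)
      (by
        intro L hL
        by_cases hLk : L.length = k + 1
        · obtain ⟨y, rfl⟩ := exists_ofFn hLk
          rw [← bd_gen T G hd hinj hz1 ((ofFn_fam T G hd).1 hL), hz2']
          rfl
        · exact hdeg _ _ (isC_map T G hd hz1) L hLk)
      (v.mapDomain List.ofFn) (isC_map T G hd hv)
      (by
        intro L hL
        by_cases hLk : L.length = k + 1 + 1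
        · obtain ⟨y, rfl⟩ := exists_ofFn hLk
          rw [← bd_gen T G hd hinj hv ((ofFn_fam T G hd).1 hL), hv2', map_ofFn]
          rfl
        · rw [hdeg _ _ (isC_map T G hd hv) L hLk]
          have : (z.mapDomain List.ofFn : List V →₀ ℤ) L = 0 := by
            by_contra h
            exact hLk (isC_map T G hd hz1 L h).2
          rw [this, smul_zero])
    refine ⟨w.comapDomain List.ofFn List.ofFn_injective.injOn, ?_, ?_⟩
    · intro x hx
      have h1 : w (List.ofFn x) ≠ 0 := by
        have := Finsupp.mem_support_iff.1 hx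
        rwa [Finsupp.comapDomain_apply] at this
      exact (ofFn_fam T G hd).1 (hw _ h1).1
    · set w' := w.comapDomain List.ofFn (List.ofFn_injective (n := k + 1 + 1 + 1)).injOn with hw'def
      have hw'MC : w' ∈ MC G (k + 1 + 1) l := by
        intro x hx
        have h1 : w (List.ofFn x) ≠ 0 := by
          have := Finsupp.mem_support_iff.1 hx
          rwa [hw'def, Finsupp.comapDomain_apply] at this
        exact (ofFn_fam T G hd).1 (hw _ h1).1
      have hmap : w'.mapDomain List.ofFn = w := by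
        ext L
        by_cases hL : L.length = k + 1 + 1 + 1
        · obtain ⟨x, rfl⟩ := exists_ofFn hL
          rw [map_ofFn, hw'def, Finsupp.comapDomain_apply]
        · have h1 : w L = 0 := by
            by_contra h
            exact hL (hw L h).2
          have h2 : (w'.mapDomain List.ofFn) L = 0 := by
            by_contra h
            exact hL (isC_map T G hd hw'MC L h).2
          rw [h1, h2]
      ext y
      show (Pool.Agent.R142.MagHom.bd G (k + 1) w') y = z y
      by_cases hy : y ∈ Tuples G (k + 1) l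
      · rw [bd_gen T G hd hinj hw'MC hy, hmap, hw2 _ ((ofFn_fam T G hd).2 hy), map_ofFn]
      · rw [bd_gen0 T G hd hinj hw'MC hy]
        by_contra h
        exact hy (hz1 (Finsupp.mem_support_iff.2 fun h' => h h'.symm))

end Pool.Agent.P8H88.MH
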