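import Mathlib
import Pool.Agent.P8H88.MH.Wq
import Pool.Agent.P8H39.MH.Stm

/-!
# Project MH (helper39), package FIN, part 4: unfolding lists of vertices
-/

set_option autoImplicit false
set_option linter.unusedSectionVars false

namespace Pool.Agent.P8H88.MH

open Pool.Agent.P8H39.MH

variable {V ι : Type} [Fintype ι] [DecidableEq ι] (T : V → ι → SignType)

lemma stp_lt {u v : ι → ℕ} (h : stp u v) : u < v :=
  lt_of_le_of_ne (fun i => (h.2 i).1) h.1

lemma chain_nodup {L : List (ι → ℕ)} (h : List.IsChain stp L) : L.Pairwise (· < ·) :=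
  List.isChain_iff_pairwise.1 (h.imp fun _ _ => stp_lt)

variable (hinj : Function.Injective T) (h0 : ∀ a i, T a i ≠ 0) (c : V)

/-- the points over vertices -/
def AA : Set (ι → ℕ) := {u | ∃ a : V, T a = xs (T c) u}

open Classical in
/-- the vertex of a point -/
noncomputable def vx (u : ι → ℕ) : V := if h : ∃ a : V, T a = xs (T c) u then h.choose else c

lemma vx_spec {u : ι → ℕ} (h : u ∈ AA T c) : T (vx T c u) = xs (T c) u := by
  have h' : ∃ a : V, T a = xs (T c) u := h
  rw [vx, dif_pos h']
  exact h'.choose_spec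

include hinj in
lemma vx_eq {u : ι → ℕ} {a : V} (h : T a = xs (T c) u) : vx T c u = a :=
  hinj ((vx_spec T c ⟨a, h⟩).trans h.symm)

lemma neg_ne {s : SignType} (h : s ≠ 0) : s ≠ -s := by
  revert s
  decide

include h0 in
lemma par {u v : ι → ℕ} (i : ι) : xs (T c) u i = xs (T c) v i ↔ (Even (u i) ↔ Even (v i)) := by
  have h := neg_ne (h0 c i)
  unfold xs
  by_cases h1 : Even (u i) <;> by_cases h2 : Even (v i) <;> simp [h1, h2, h, Ne.symm h]

include h0 in
lemma par_of {u v : ι → ℕ} (hu : u ∈ AA T c) (hv : v ∈ AA T c) (h : vx T c u = vx T c v) (i : ι) :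
    Even (u i) ↔ Even (v i) := by
  rw [← par T h0 c i, ← vx_spec T c hu, ← vx_spec T c hv, h]

include h0 in
lemma step {u v : ι → ℕ} (hu : u ∈ AA T c) (hv : v ∈ AA T c) (h : stp u v) :
    u + dl T (vx T c u) (vx T c v) = v ∧ vx T c u ≠ vx T c v := by
  constructor
  · funext i
    rw [Pi.add_apply, dl, vx_spec T c hu, vx_spec T c hv]
    have h1 := h.2 i
    have h2 := par T h0 c (u := u) (v := v) i
    by_cases h3 : xs (T c) u i = xs (T c) v i
    · rw [if_pos h3]
      have h4 := h2.1 h3
      rw [Nat.even_iff, Nat.even_iff] at h4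
      omega
    · rw [if_neg h3]
      have h4 : ¬ (Even (u i) ↔ Even (v i)) := fun h => h3 (h2.2 h)
      rw [Nat.even_iff, Nat.even_iff] at h4
      omega
  · intro h1
    apply h.1
    funext i
    have h2 := par_of T h0 c hu hv h1 i
    have h3 := h.2 i
    rw [Nat.even_iff, Nat.even_iff] at h2
    omega

include h0 in
lemma up (w : ι → ℕ) (hw : w ∈ AA T c) (τ : List (ι → ℕ)) : ∀ u : ι → ℕ, u ∈ AA T c →
    (∀ v ∈ τ, v ∈ AA T c) → List.IsChain stp (u :: (τ ++ [w])) →
    u + wq T (vx T c u) ((τ ++ [w]).map (vx T c)) = w ∧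
      List.IsChain (· ≠ ·) (vx T c u :: (τ ++ [w]).map (vx T c)) := by
  induction τ with
  | nil =>
    intro u hu _ h
    simp only [List.nil_append, List.map_cons, List.map_nil] at h ⊢
    rw [List.isChain_cons_cons] at h
    obtain ⟨h1, h2⟩ := step T h0 c hu hw h.1
    refine ⟨?_, ?_⟩
    · rw [wq_cons, wq_nil, add_zero]
      exact h1
    · rw [List.isChain_cons_cons]
      exact ⟨h2, List.isChain_singleton _⟩
  | cons v τ ih =>
    intro u hu hτ h
    have hv := hτ v List.mem_cons_self
    rw [List.cons_append, List.isChain_cons_cons] at h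
    obtain ⟨h1, h2⟩ := step T h0 c hu hv h.1
    obtain ⟨h3, h4⟩ := ih v hv (fun x hx => hτ x (List.mem_cons_of_mem _ hx)) h.2
    rw [List.cons_append, List.map_cons]
    refine ⟨?_, ?_⟩
    · rw [wq_cons, ← add_assoc, h1]
      exact h3
    · rw [List.isChain_cons_cons]
      exact ⟨h2, h4⟩

include hinj h0 in
lemma dn (M : List V) : ∀ (u : ι → ℕ) (a : V), T a = xs (T c) u → List.IsChain (· ≠ ·) (a :: M) →
    M ≠ [] → ∃ τ : List (ι → ℕ), List.IsChain stp (u :: (τ ++ [u + wq T a M])) ∧
      (∀ v ∈ τ, v ∈ AA T c) ∧ (u + wq T a M) ∈ AA T c ∧ (τ ++ [u + wq T a M]).map (vx T c) = M := by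
  induction M with
  | nil => intro _ _ _ _ h; exact absurd rfl h
  | cons b M ih =>
    intro u a hu hc _
    rw [List.isChain_cons_cons] at hc
    have hT : T b = xs (T c) (u + dl T a b) := by
      funext i
      have e1 := congrFun hu i
      unfold xs dl at *
      by_cases h1 : T a i = T b i
      · rw [Pi.add_apply, if_pos h1, add_zero, ← h1]
        exact e1
      · rw [Pi.add_apply, if_neg h1]
        have h2 : T b i = -T a i := by
          have h3 := h0 a i
          have h4 := h0 b i
          revert h1 h3 h4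
          generalize T a i = p
          generalize T b i = q
          revert p q
          decide
        rw [h2, e1]
        by_cases h3 : Even (u i)
        · rw [if_pos h3, if_neg (by rw [Nat.even_add_one]; exact not_not.2 h3)]
        · rw [if_neg h3, if_pos (by rw [Nat.even_add_one]; exact h3), neg_neg]
    have hst : stp u (u + dl T a b) := by
      refine ⟨?_, fun i => ?_⟩
      · intro h
        apply hc.1
        apply dl_eq_zero T hinj
        exact (left_eq_add.1 h)
      · rw [Pi.add_apply, dl]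
        split_ifs <;> omega
    by_cases hM : M = []
    · subst hM
      refine ⟨[], ?_, by simp, ?_, ?_⟩
      · rw [wq_cons, wq_nil, add_zero, List.nil_append, List.isChain_cons_cons]
        exact ⟨hst, List.isChain_singleton _⟩
      · rw [wq_cons, wq_nil, add_zero]
        exact ⟨b, hT⟩
      · rw [wq_cons, wq_nil, add_zero, List.nil_append, List.map_cons, List.map_nil, vx_eq T hinj c hT]
    · obtain ⟨τ, h1, h2, h3, h4⟩ := ih (u + dl T a b) b hT hc.2 hM
      rw [wq_cons, ← add_assoc]
      refine ⟨(u + dl T a b) :: τ, ?_, ?_, h3, ?_⟩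
      · rw [List.cons_append, List.isChain_cons_cons]
        exact ⟨hst, h1⟩
      · intro v hv
        rcases List.mem_cons.1 hv with rfl | hv
        · exact ⟨b, hT⟩
        · exact h2 v hv
      · rw [List.cons_append, List.map_cons, h4, vx_eq T hinj c hT]

include h0 in
/-- the unfolding is unique -/
lemma uniq (w : ι → ℕ) (hw : w ∈ AA T c) (τ : List (ι → ℕ)) : ∀ (m n : ι → ℕ) (N : List (ι → ℕ)),
    m ∈ AA T c → (∀ v ∈ τ, v ∈ AA T c) → (∀ v ∈ n :: N, v ∈ AA T c) →
    List.IsChain stp (m :: (τ ++ [w])) → List.IsChain (· ≤ ·) (n :: N) → (∀ x ∈ n :: N, x ≤ w) →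
    (m :: (τ ++ [w])).map (vx T c) = (n :: N).map (vx T c) → m ≤ n → m :: (τ ++ [w]) = n :: N := by
  induction τ with
  | nil =>
    intro m n N hm _ hn hc1 hc2 hle hmap hmn
    simp only [List.nil_append, List.map_cons, List.map_nil, List.cons.injEq] at hmap
    obtain ⟨e1, e2⟩ := hmap
    cases N with
    | nil => simp at e2
    | cons n' N' =>
      simp only [List.map_cons, List.cons.injEq] at e2
      obtain ⟨e2, e3⟩ := e2
      have hN : N' = [] := by
        cases N' with
        | nil => rfl
        | cons x y => simp at e3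
      subst hN
      rw [List.isChain_cons_cons] at hc2
      simp only [List.nil_append] at hc1
      rw [List.isChain_cons_cons] at hc1
      have p1 := par_of T h0 c hm (hn n List.mem_cons_self) e1
      have p2 := par_of T h0 c hw (hn n' (by simp)) e2
      have hnw := hle n' (by simp)
      have en' : w = n' := by
        funext i
        have q1 := hc1.1.2 i
        have q2 : m i ≤ n i := hmn i
        have q3 : n i ≤ n' i := hc2.1 i
        have q4 : n' i ≤ w i := hnw i
        have q5 := p2 i
        rw [Nat.even_iff, Nat.even_iff] at q5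
        omega
      have en : m = n := by
        funext i
        have q1 := hc1.1.2 i
        have q2 : m i ≤ n i := hmn i
        have q3 : n i ≤ n' i := hc2.1 i
        have q4 : n' i ≤ w i := hnw i
        have q5 := p1 i
        rw [Nat.even_iff, Nat.even_iff] at q5
        omega
      rw [en, en']
      rfl
  | cons v τ ih =>
    intro m n N hm hτ hn hc1 hc2 hle hmap hmn
    cases N with
    | nil => simp at hmap
    | cons n' N' =>
      rw [List.cons_append, List.isChain_cons_cons] at hc1
      rw [List.isChain_cons_cons] at hc2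
      rw [List.cons_append, List.map_cons, List.map_cons, List.map_cons, List.map_cons, List.cons.injEq,
        List.cons.injEq] at hmap
      obtain ⟨e1, e2, e3⟩ := hmap
      have p1 := par_of T h0 c hm (hn n List.mem_cons_self) e1
      have p2 := par_of T h0 c (hτ v List.mem_cons_self) (hn n' (by simp)) e2
      have hvn : v ≤ n' := by
        intro i
        show v i ≤ n' i
        have q1 := hc1.1.2 i
        have q2 : m i ≤ n i := hmn i
        have q3 : n i ≤ n' i := hc2.1 i
        have q5 := p2 i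
        rw [Nat.even_iff, Nat.even_iff] at q5
        omega
      have key := ih v n' N' (hτ v List.mem_cons_self) (fun x hx => hτ x (List.mem_cons_of_mem _ hx))
        (fun x hx => hn x (List.mem_cons_of_mem _ hx)) hc1.2 hc2.2
        (fun x hx => hle x (List.mem_cons_of_mem _ hx)) (by rw [List.map_cons, List.map_cons, e2, e3]) hvn
      have key2 := key
      rw [List.cons.injEq] at key2
      have en : m = n := by
        funext i
        have q1 := hc1.1.2 i
        have q2 : m i ≤ n i := hmn i
        have q3 : n i ≤ n' i := hc2.1 i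
        have q4 : v i = n' i := congrFun key2.1 i
        have q5 := p1 i
        rw [Nat.even_iff, Nat.even_iff] at q5
        omega
      rw [List.cons_append, key, en]

/-- the full unfolded lists -/
def UC (w : ι → ℕ) : Set (List (ι → ℕ)) := {L | ∃ τ ∈ MM (AA T c) 0 w, L = 0 :: (τ ++ [w])}

lemma zero_mem : (0 : ι → ℕ) ∈ AA T c := ⟨c, by funext i; simp [xs]⟩

theorem ex_UC {M : Type} [AddCommGroup M] {w : ι → ℕ} {k : ℕ} (h : Ex M (MM (AA T c) 0 w) k) :
    Ex M (UC T c w) (k + 2) := by
  have himg : UC T c w = (fun τ : List (ι → ℕ) => 0 :: (τ ++ [w])) '' MM (AA T c) 0 w := by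
    ext L
    constructor
    · rintro ⟨τ, h1, rfl⟩
      exact ⟨τ, h1, rfl⟩
    · rintro ⟨τ, h1, rfl⟩
      exact ⟨τ, h1, rfl⟩
  rw [himg]
  refine (transport (e := -1) _ ?_ (by norm_num) ?_ ?_).2 h
  · intro a _ b _ hab
    simpa using hab
  · intro l _
    simp
  · intro l hl m _
    have hnd : (0 :: (l ++ [w])).Nodup := (chain_nodup hl.1).nodup
    have h1 := D_append_left [(0 : ι → ℕ)] (l ++ [w]) (m ++ [w]) hnd
    simp only [List.length_singleton, pow_one] at h1
    have h2 := D_append_right [w] l m (List.nodup_cons.1 hnd).2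
    show D ([0] ++ (l ++ [w])) ([0] ++ (m ++ [w])) = _
    rw [h1, h2]

include h0 in
lemma uc_uniq {w : ι → ℕ} (hw : w ∈ AA T c) {l m N : List (ι → ℕ)} (hl : l ∈ UC T c w)
    (hm : m ∈ UC T c w) (hN : N.Sublist l) (h : N.map (vx T c) = m.map (vx T c)) : N = m := by
  obtain ⟨τ, ⟨hτ1, hτ2⟩, rfl⟩ := hl
  obtain ⟨σ, ⟨hσ1, hσ2⟩, rfl⟩ := hm
  cases N with
  | nil => simp at h
  | cons n N =>
    have hpl := chain_nodup hτ1
    have hmem : ∀ x ∈ (0 :: (τ ++ [w]) : List (ι → ℕ)), x ∈ AA T c ∧ x ≤ w := by
      intro x hx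
      rw [← List.cons_append] at hx hpl
      rcases List.mem_append.1 hx with hx | hx
      · refine ⟨?_, ?_⟩
        · rcases List.mem_cons.1 hx with rfl | hx
          · exact zero_mem T c
          · exact hτ2 x hx
        · exact ((List.pairwise_append.1 hpl).2.2 x hx w (by simp)).le
      · rw [List.mem_singleton] at hx
        subst hx
        exact ⟨hw, le_rfl⟩
    refine (uniq T h0 c w hw σ 0 n N (zero_mem T c) hσ2 (fun v hv => (hmem v (hN.subset hv)).1) hσ1
      ?_ (fun v hv => (hmem v (hN.subset hv)).2) h.symm ?_).symm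
    · exact (List.isChain_iff_pairwise.2 (hpl.sublist hN)).imp fun _ _ h => le_of_lt h
    · intro i
      exact Nat.zero_le _

include h0 in
theorem ex_map {M : Type} [AddCommGroup M] {w : ι → ℕ} (hw : w ∈ AA T c) {k : ℕ}
    (h : Ex M (UC T c w) k) : Ex M (List.map (vx T c) '' UC T c w) k := by
  have key := (transport (M := M) (e := 1) (s := 0) (k := k) (List.map (vx T c)) (S := UC T c w) ?_ (by norm_num) ?_ ?_).2 h
  · exact key
  · intro a ha b hb hab
    exact uc_uniq T h0 c hw ha hb (List.Sublist.refl _) hab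
  · intro l _
    simp
  · intro l hl m hm
    rw [one_mul]
    apply D_map_of
    intro i _ h1
    exact uc_uniq T h0 c hw hl hm (List.eraseIdx_sublist l i) h1

include hinj h0 in
theorem img {w : ι → ℕ} (hw : w ∈ AA T c) (hw0 : w ≠ 0) : List.map (vx T c) '' UC T c w =
    {L | L ∈ fam T (∑ i, w i) ∧ fp T L = (some c, w)} := by
  have hc0 : vx T c 0 = c := vx_eq T hinj c (by funext i; simp [xs])
  ext L
  constructor
  · rintro ⟨_, ⟨τ, ⟨h1, h2⟩, rfl⟩, rfl⟩
    obtain ⟨h3, h4⟩ := up T h0 c w hw τ 0 (zero_mem T c) h2 h1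
    rw [zero_add, hc0] at h3
    rw [hc0] at h4
    rw [List.map_cons, hc0]
    exact ⟨⟨c, _, rfl, h4, by rw [h3]⟩, by rw [fp, h3]⟩
  · rintro ⟨⟨a, M, rfl, hc, hs⟩, h⟩
    rw [fp, Prod.mk.injEq, Option.some.injEq] at h
    obtain ⟨rfl, hq⟩ := h
    have hM : M ≠ [] := by
      rintro rfl
      rw [wq_nil] at hq
      exact hw0 hq.symm
    obtain ⟨τ, h1, h2, h3, h4⟩ := dn T hinj h0 a M 0 a (by funext i; simp [xs]) hc hM
    rw [zero_add, hq] at h1 h3 h4
    refine ⟨0 :: (τ ++ [w]), ⟨τ, ⟨h1, h2⟩, rfl⟩, ?_⟩
    rw [List.map_cons, h4, hc0]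

end Pool.Agent.P8H88.MH
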