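import Mathlib
import Pool.Agent.P8H88.MH.Cov
import Pool.Agent.P8H88.MH.Unf
import Pool.Agent.P8H88.MH.Mag

/-!
# Project MH (helper39), package FIN: from the vanishing theorem to the magnitude homology of the
tope graph
-/

set_option autoImplicit false
set_option linter.unusedSectionVars false

namespace Pool.Agent.P8H88.MH

open Pool.Agent.P8H39.MH
open Pool.Agent.R142.Arr

section pieces

variable {V ι : Type} [Fintype ι] [DecidableEq ι] (T : V → ι → SignType)
  (hinj : Function.Injective T) (h0 : ∀ a i, T a i ≠ 0)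

include hinj h0 in
theorem TF_fam (hvan : ∀ (c : V) (w : ι → ℕ), w ∈ AA T c → w ≠ 0 → ∃ κ : ℕ, ∀ (M : Type) [AddCommGroup M]
    (k : ℕ), k ≠ κ → Ex M (MM (AA T c) 0 w) k) (l k : ℕ) (hk : 2 ≤ k) : TF (fam T l) k := by
  refine TF_pieces (fp T) (fun L hL M hM hD => fp_eq T hinj hL hM (D_ne_zero hD).1) ?_
  rintro ⟨o, w⟩
  cases o with
  | none =>
    apply TF_of_no
    rintro L ⟨⟨a, M, rfl, -, -⟩, h⟩
    rw [fp, Prod.mk.injEq] at h
    exact absurd h.1 (by simp)
  | some c =>
    by_cases hw0 : w = 0
    · apply TF_of_no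
      rintro L ⟨⟨a, M, rfl, hc, -⟩, h⟩ hlen
      rw [fp, Prod.mk.injEq] at h
      cases M with
      | nil => rw [List.length_singleton] at hlen; omega
      | cons b M =>
        rw [List.isChain_cons_cons] at hc
        apply hc.1
        apply dl_eq_zero T hinj
        have h1 : dl T a b + wq T b M = 0 := h.2.trans hw0
        funext i
        have := congrFun h1 i
        rw [Pi.add_apply, Pi.zero_apply] at this
        rw [Pi.zero_apply]
        omega
    by_cases hs : ∑ i, w i = l
    · by_cases hw : w ∈ AA T c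
      · obtain ⟨κ, hκ⟩ := hvan c w hw hw0
        refine TF_of_Ex (conv_fam T hinj l (some c, w)) (κ + 2) ?_ k
        intro M _ j hj
        rw [← hs, ← img T hinj h0 c hw hw0]
        by_cases hj2 : 2 ≤ j
        · obtain ⟨i, rfl⟩ := Nat.exists_eq_add_of_le hj2
          apply ex_map T h0 c hw
          rw [add_comm 2 i]
          apply ex_UC
          exact hκ M i (by omega)
        · apply ex_of_no
          rintro _ ⟨_, ⟨τ, -, rfl⟩, rfl⟩ hlen
          rw [List.length_map, List.length_cons, List.length_append, List.length_singleton] at hlen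
          omega
      · apply TF_of_no
        rintro L ⟨⟨a, M, rfl, hc, -⟩, h⟩ hlen
        rw [fp, Prod.mk.injEq, Option.some.injEq] at h
        obtain ⟨rfl, h⟩ := h
        have hM : M ≠ [] := by
          rintro rfl
          rw [List.length_singleton] at hlen
          omega
        obtain ⟨τ, -, -, h3, -⟩ := dn T hinj h0 a M 0 a (by funext i; simp [xs]) hc hM
        rw [zero_add, h] at h3
        exact hw h3
    · apply TF_of_no
      rintro L ⟨⟨a, M, rfl, hc, hs'⟩, h⟩ hlen
      rw [fp, Prod.mk.injEq] at h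
      rw [h.2] at hs'
      exact hs hs'

end pieces

section arr

variable {d : ℕ} {ι : Type} [Fintype ι] [DecidableEq ι] (f : ι → ((Fin d → ℝ) →ₗ[ℝ] ℝ))

/-- the sign vector of a chamber -/
noncomputable def TC (C : Chamber (arr f)) : ι → SignType := fun i => if sgC f C i then 1 else -1

lemma TC_eq_iff {C D : Chamber (arr f)} {i : ι} : TC f C i = TC f D i ↔ sgC f C i = sgC f D i := by
  unfold TC
  generalize sgC f C i = p
  generalize sgC f D i = q
  revert p q
  decide

lemma TC_inj : Function.Injective (TC f) := by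
  intro C D h
  apply sgC_injective f
  funext i
  exact (TC_eq_iff f).1 (congrFun h i)

lemma TC_ne (C : Chamber (arr f)) (i : ι) : TC f C i ≠ 0 := by
  unfold TC
  split_ifs <;> decide

lemma TC_coe (x : Pool.Agent.R142.Arr.Complement (arr f)) : TC f (x : ConnectedComponents (Pool.Agent.R142.Arr.Complement (arr f))) = sv f x.1 := by
  funext i
  unfold TC sv
  rw [sgC_coe]
  by_cases h : sg f x i = true
  · rw [if_pos h, sign_pos ((sg_true f).1 h)]
  · rw [if_neg h, sign_neg ((sg_false f).1 (by simpa using h))]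

lemma TC_mem (C : Chamber (arr f)) : TC f C ∈ cov f := by
  obtain ⟨x, rfl⟩ := ConnectedComponents.surjective_coe C
  rw [TC_coe]
  exact ⟨x.1, rfl⟩

lemma exists_TC {X : ι → SignType} (hX : X ∈ cov f) (h0 : ∀ i, X i ≠ 0) : ∃ C : Chamber (arr f), TC f C = X := by
  obtain ⟨x, rfl⟩ := hX
  have hne : ∀ H ∈ arr f, x ∉ H := by
    intro H hH hxH
    obtain ⟨i, rfl⟩ := (mem_arr f).1 hH
    rw [LinearMap.mem_ker] at hxH
    apply h0 i
    unfold sv
    rw [hxH, sign_zero]
  exact ⟨((⟨x, hne⟩ : Pool.Agent.R142.Arr.Complement (arr f)) : ConnectedComponents (Pool.Agent.R142.Arr.Complement (arr f))), TC_coe f ⟨x, hne⟩⟩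

lemma hstep (hrk : ∀ i, Module.finrank ℝ (LinearMap.ker (f i)) + 1 = d)
    (hinj : Function.Injective fun i => LinearMap.ker (f i)) (a b : Chamber (arr f)) (hab : a ≠ b) :
    ∃ c, hammingDist (sgC f a) (sgC f c) = 1 ∧
      hammingDist (sgC f c) (sgC f b) + 1 = hammingDist (sgC f a) (sgC f b) := by
  let S : Finset ι := Finset.univ.filter fun i => sgC f a i ≠ sgC f b i
  have hS : S.Nonempty := by
    by_contra h
    rw [Finset.not_nonempty_iff_eq_empty, Finset.filter_eq_empty_iff] at h
    apply hab
    apply sgC_injective f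
    funext i
    by_contra h1
    exact h (Finset.mem_univ i) h1
  have hne2 : ∀ (x y : Chamber (arr f)) (i : ι), sgC f x i ≠ sgC f y i → TC f y i = -TC f x i := by
    intro x y i h
    unfold TC
    revert h
    generalize sgC f x i = p
    generalize sgC f y i = q
    revert p q
    decide
  have hb : flp (TC f a) S = TC f b := by
    funext i
    unfold flp
    by_cases h : i ∈ S
    · rw [if_pos h]
      exact (hne2 a b i (Finset.mem_filter.1 h).2).symm
    · rw [if_neg h, TC_eq_iff]
      by_contra h1
      exact h (Finset.mem_filter.2 ⟨Finset.mem_univ i, h1⟩)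
  obtain ⟨i, hi, hflp⟩ := single_flip f hrk hinj (TC_mem f a) (TC_ne f a) hS (hb ▸ TC_mem f b)
  obtain ⟨c, hc⟩ := exists_TC f hflp (by
    intro j
    unfold flp
    have := TC_ne f a j
    split_ifs
    · revert this
      generalize TC f a j = p
      revert p
      decide
    · exact this)
  have hi2 : sgC f a i ≠ sgC f b i := (Finset.mem_filter.1 hi).2
  have hci : sgC f a i ≠ sgC f c i := by
    intro h
    have h1 := (TC_eq_iff f).2 h
    rw [hc] at h1
    unfold flp at h1
    rw [if_pos (Finset.mem_singleton_self i)] at h1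
    exact neg_ne (TC_ne f a i) h1
  have hcj : ∀ j, j ≠ i → sgC f a j = sgC f c j := by
    intro j hj
    rw [← TC_eq_iff, hc]
    unfold flp
    rw [if_neg (by simpa using hj)]
  refine ⟨c, ?_, ?_⟩
  · have : (Finset.univ.filter fun j => sgC f a j ≠ sgC f c j) = {i} := by
      ext j
      rw [Finset.mem_filter, Finset.mem_singleton]
      constructor
      · rintro ⟨-, h⟩
        by_contra hj
        exact h (hcj j hj)
      · rintro rfl
        exact ⟨Finset.mem_univ _, hci⟩
    rw [hammingDist, this, Finset.card_singleton]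
  · have : (Finset.univ.filter fun j => sgC f c j ≠ sgC f b j) = S.erase i := by
      ext j
      rw [Finset.mem_filter, Finset.mem_erase, Finset.mem_filter]
      by_cases hj : j = i
      · subst hj
        constructor
        · rintro ⟨-, h⟩
          exfalso
          revert hi2 hci h
          generalize sgC f a j = p
          generalize sgC f b j = q
          generalize sgC f c j = r
          revert p q r
          decide
        · rintro ⟨h, -⟩
          exact absurd rfl h
      · rw [← hcj j hj]
        simp [hj]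
    rw [hammingDist, hammingDist, this]
    exact Finset.card_erase_add_one hi

lemma dist_dl (hrk : ∀ i, Module.finrank ℝ (LinearMap.ker (f i)) + 1 = d)
    (hinj : Function.Injective fun i => LinearMap.ker (f i)) (a b : Chamber (arr f)) :
    (topeGraph (arr f)).dist a b = ∑ i, dl (TC f) a b i := by
  rw [dist_eq (topeGraph (arr f)) (sgC f) (sgC_injective f) (adj_iff f hinj) (hstep f hrk hinj) a b,
    hammingDist, Finset.card_filter]
  refine Finset.sum_congr rfl fun i _ => ?_
  unfold dl
  by_cases h : sgC f a i = sgC f b i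
  · rw [if_pos ((TC_eq_iff f).2 h), if_neg (not_not.2 h)]
  · rw [if_neg fun h' => h ((TC_eq_iff f).1 h'), if_pos h]

lemma adm_eq (c : Chamber (arr f)) : adm (cov f) (TC f c) = AA (TC f) c := by
  ext u
  constructor
  · intro h
    exact exists_TC f h fun i => by
      unfold xs
      have := TC_ne f c i
      split_ifs
      · exact this
      · revert this
        generalize TC f c i = p
        revert p
        decide
  · rintro ⟨a, ha⟩
    show xs (TC f c) u ∈ cov f
    rw [← ha]
    exact TC_mem f a

theorem main (hv : S_VAN) (hrk : ∀ i, Module.finrank ℝ (LinearMap.ker (f i)) + 1 = d)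
    (hinj : Function.Injective fun i => LinearMap.ker (f i)) (k l : ℕ) (m : ℤ)
    (x : Pool.Agent.R142.MagHom.MH (topeGraph (arr f)) k l) (hm : m ≠ 0) (hx : m • x = 0) : x = 0 := by
  refine tors (TC f) (topeGraph (arr f)) (dist_dl f hrk hinj) (TC_inj f) ?_ k l m x hm hx
  intro l k hk
  refine TF_fam (TC f) (TC_inj f) (TC_ne f) ?_ l k hk
  intro c w hw hw0
  rw [← adm_eq] at hw ⊢
  refine hv ι (cov f) (cos f) (TC f c) (TC_mem f c) (TC_ne f c) 0 w ?_ hw (fun i => Nat.zero_le _) hw0.symm
  rw [adm_eq]
  exact zero_mem (TC f) c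

end arr

lemma exists_form {d : ℕ} (H : Submodule ℝ (Fin d → ℝ)) (h : Module.finrank ℝ H + 1 = d) :
    ∃ g : (Fin d → ℝ) →ₗ[ℝ] ℝ, LinearMap.ker g = H := by
  have h1 := Submodule.finrank_quotient_add_finrank H
  rw [Module.finrank_fin_fun] at h1
  have h2 : Module.finrank ℝ ((Fin d → ℝ) ⧸ H) = Module.finrank ℝ ℝ := by
    rw [Module.finrank_self]
    omega
  let e : ((Fin d → ℝ) ⧸ H) ≃ₗ[ℝ] ℝ := LinearEquiv.ofFinrankEq _ _ h2
  refine ⟨e.toLinearMap.comp H.mkQ, ?_⟩
  rw [LinearEquiv.ker_comp, Submodule.ker_mkQ]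

/-- **FIN** -/
theorem fin : S_FIN := by
  intro hv d A hA
  classical
  let ι : Type := {H : Submodule ℝ (Fin d → ℝ) // H ∈ A}
  have h1 : ∀ i : ι, ∃ g : (Fin d → ℝ) →ₗ[ℝ] ℝ, LinearMap.ker g = i.1 := fun i => exists_form i.1 (hA i.1 i.2)
  choose f hf using h1
  have harr : arr f = A := by
    ext H
    rw [mem_arr]
    constructor
    · rintro ⟨i, rfl⟩
      rw [hf]
      exact i.2
    · intro hH
      exact ⟨⟨H, hH⟩, hf _⟩
  have key := main f hv (fun i => by rw [hf]; exact hA i.1 i.2) (by
    intro i j hij
    apply Subtype.ext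
    rw [← hf i, ← hf j]
    exact hij)
  rw [harr] at key
  exact key

end Pool.Agent.P8H88.MH
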